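import Mathlib
import Pool.Agent.Q92.Congl

/-!
# MP_78c350_an: a free filter which is neither poor nor conglomerated (in ZFC)

The proof distinguishes the cases `ℵ₁ < 𝔠` (an intersection of `ℵ₁` ultrafilters) and
`ℵ₁ = 𝔠` (an ultraproduct of finite algebras along a P-point).
-/

namespace Pool.Agent.Results.MP_78c350_an.NeitherNor

open Set Filter Topology Cardinal Q92.Gaifman

/-! ### the failure of the continuum hypothesis -/

/-- The union of the sets of the `D n`, `n` a code of an initial segment of `S`. -/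
lemma case_notCH (h : (ℵ₁ : Cardinal.{0}) < 𝔠) : ∃ F : Filter ℕ, IsFree F ∧ ¬ Poor F ∧ ¬ Conglomerated F := by
  obtain ⟨Γ, hΓ⟩ : ∃ Γ : Set (Set ℕ), #Γ = ℵ₁ :=
    Cardinal.le_mk_iff_exists_set.mp (by
      rw [Cardinal.mk_set, Cardinal.mk_nat, Cardinal.two_power_aleph0]; exact h.le)
  have hne : ∀ γ : Γ, (cofinite ⊓ 𝓟 (range (seg γ.1))).NeBot := by
    intro γ
    rw [← Filter.frequently_mem_iff_neBot, Filter.frequently_cofinite_iff_infinite]
    exact Set.infinite_range_of_injective (seg_inj γ.1)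
  have hex : ∀ γ : Γ, ∃ U : Ultrafilter ℕ, (U : Filter ℕ) ≤ cofinite ⊓ 𝓟 (range (seg γ.1)) :=
    fun γ => haveI := hne γ; Ultrafilter.exists_le _
  choose U hU using hex
  set F : Filter ℕ := ⨆ γ, (U γ : Filter ℕ) with hF
  have hmem : ∀ A : Set ℕ, A ∈ F ↔ ∀ γ, A ∈ U γ := fun A => mem_iSup
  have hΓne : Nonempty Γ := by
    rw [← Cardinal.mk_ne_zero_iff, hΓ]
    exact (Cardinal.aleph_pos 1).ne'
  obtain ⟨γ₀⟩ := hΓne
  refine ⟨F, ⟨?_, ?_⟩, ?_, ?_⟩
  · rw [neBot_iff]
    intro hbot
    have : (∅ : Set ℕ) ∈ F := by rw [hbot]; exact mem_bot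
    exact Ultrafilter.empty_notMem ((hmem ∅).mp this γ₀)
  · intro A hA
    rw [hmem]
    intro γ
    exact (hU γ) (mem_inf_of_left (mem_cofinite.mpr hA))
  · intro hpoor
    have hc : Countable Γ := hpoor Γ (fun γ => range (seg γ.1)) (by
      intro γ hcon
      have h1 : (range (seg γ.1))ᶜ ∈ U γ := (hmem _).mp hcon γ
      have h2 : range (seg γ.1) ∈ U γ := (hU γ) (mem_inf_of_right (mem_principal_self _))
      exact Ultrafilter.compl_notMem_iff.mpr h2 h1) (by
      intro γ γ' hne
      show (range (seg γ.1) ∩ range (seg γ'.1))ᶜ ∈ F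
      rw [hmem]
      intro γ''
      apply (hU γ'') (mem_inf_of_left (mem_cofinite.mpr _))
      rw [compl_compl]
      exact seg_inter (fun h => hne (Subtype.ext h)))
    have h1 : #Γ ≤ ℵ₀ := Cardinal.mk_le_aleph0
    rw [hΓ] at h1
    exact absurd h1 (not_le.mpr Cardinal.aleph0_lt_aleph_one)
  · rintro ⟨D, hD, hdis, hM⟩
    set X : Set ℕ → Set ℕ := fun S => ⋃ n ∈ range (seg S), D n with hX
    have hgr : ∀ S, ∃ γ, X S ∈ U γ := by
      intro S
      have h1 : (X S)ᶜ ∉ F := hM _ (Set.infinite_range_of_injective (seg_inj S))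
      rw [hmem] at h1
      push Not at h1
      obtain ⟨γ, hγ⟩ := h1
      exact ⟨γ, Ultrafilter.compl_notMem_iff.mp hγ⟩
    choose g hg using hgr
    have hinj : Function.Injective g := by
      intro S T hST
      by_contra hne
      have h1 : X S ∩ X T ∈ U (g S) := inter_mem (hg S) (by rw [hST]; exact hg T)
      have hfin := seg_inter hne
      have h2 : (⋂ n ∈ (range (seg S) ∩ range (seg T)), (D n)ᶜ) ∈ U (g S) := by
        have : (⋂ n ∈ (range (seg S) ∩ range (seg T)), (D n)ᶜ) ∈ (U (g S) : Filter ℕ) := by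
          rw [Filter.biInter_mem hfin]
          intro n _
          exact (hmem _).mp (hD n) (g S)
        exact this
      have h3 := inter_mem h1 h2
      have h4 : (X S ∩ X T) ∩ (⋂ n ∈ (range (seg S) ∩ range (seg T)), (D n)ᶜ) = ∅ := by
        rw [eq_empty_iff_forall_notMem]
        rintro k ⟨⟨hk1, hk2⟩, hk3⟩
        simp only [hX, mem_iUnion, exists_prop] at hk1 hk2
        obtain ⟨m, hm, hkm⟩ := hk1
        obtain ⟨n, hn, hkn⟩ := hk2
        have hmn : m = n := by
          by_contra hne
          exact Set.disjoint_left.mp (hdis m n hne) hkm hkn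
        subst hmn
        exact mem_iInter₂.mp hk3 m ⟨hm, hn⟩ hkm
      rw [h4] at h3
      exact Ultrafilter.empty_notMem h3
    have h1 : #(Set ℕ) ≤ #Γ := Cardinal.mk_le_of_injective hinj
    rw [Cardinal.mk_set, Cardinal.mk_nat, Cardinal.two_power_aleph0, hΓ] at h1
    exact absurd h (not_lt.mpr h1)

/-! ### P-points under the continuum hypothesis -/

/-- pseudo-intersections -/
lemma pseudo {α : Type} (s : Set α) (hs : s.Countable) (T : α → Set ℕ)
    (h : ∀ t : Finset α, (∀ a ∈ t, a ∈ s) → {n | ∀ a ∈ t, n ∈ T a}.Infinite) (S : Set ℕ) :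
    ∃ P : Set ℕ, P.Infinite ∧ (∀ a ∈ s, (P \ T a).Finite) ∧ (P ⊆ S ∨ P ⊆ Sᶜ) := by
  classical
  have key : ∃ P : Set ℕ, P.Infinite ∧ ∀ a ∈ s, (P \ T a).Finite := by
    rcases s.eq_empty_or_nonempty with he | hne
    · refine ⟨univ, infinite_univ, fun a ha => ?_⟩
      rw [he] at ha; exact absurd ha (notMem_empty a)
    · obtain ⟨e, he⟩ := hs.exists_eq_range hne
      have hpick : ∀ n : ℕ, ∃ k, n ≤ k ∧ ∀ i ≤ n, k ∈ T (e i) := by
        intro n
        have h1 := h ((Finset.range (n + 1)).image e) (by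
          intro a ha
          obtain ⟨i, -, rfl⟩ := Finset.mem_image.mp ha
          rw [he]; exact mem_range_self i)
        obtain ⟨k, hk, hnk⟩ := h1.exists_gt n
        refine ⟨k, hnk.le, fun i hi => hk (e i) (Finset.mem_image_of_mem _ ?_)⟩
        exact Finset.mem_range.mpr (by omega)
      choose p hp1 hp2 using hpick
      refine ⟨range p, ?_, ?_⟩
      · apply Set.infinite_of_not_bddAbove
        rintro ⟨b, hb⟩
        have h1 := hb ⟨b + 1, rfl⟩
        have h2 := hp1 (b + 1)
        omega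
      · intro a ha
        rw [he] at ha
        obtain ⟨i, rfl⟩ := ha
        refine ((Finset.range i).image p).finite_toSet.subset ?_
        rintro _ ⟨⟨n, rfl⟩, hn⟩
        rw [Finset.mem_coe]
        apply Finset.mem_image_of_mem
        rw [Finset.mem_range]
        by_contra hlt
        exact hn (hp2 n i (by omega))
  obtain ⟨P, hP, hPs⟩ := key
  by_cases hinf : (P ∩ S).Infinite
  · exact ⟨P ∩ S, hinf, fun a ha => (hPs a ha).subset (by
      rintro x ⟨⟨h1, -⟩, h2⟩; exact ⟨h1, h2⟩), Or.inl inter_subset_right⟩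
  · have h2 : (P \ S).Infinite := by
      intro hfin
      apply hP
      rw [← inter_union_sdiff P S]
      exact (not_infinite.mp hinf).union hfin
    exact ⟨P \ S, h2, fun a ha => (hPs a ha).subset (by
      rintro x ⟨⟨h1, -⟩, h2⟩; exact ⟨h1, h2⟩), Or.inr (fun x hx => hx.2)⟩

/-- under the continuum hypothesis there is a P-point -/
lemma exists_pPoint (hCH : (𝔠 : Cardinal.{0}) = ℵ₁) : ∃ U : Ultrafilter ℕ, (U : Filter ℕ) ≤ cofinite ∧
    ∀ B : ℕ → Set ℕ, (∀ n, B n ∈ U) → ∃ P ∈ U, ∀ n, (P \ B n).Finite := by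
  classical
  obtain ⟨r, wo, hr⟩ := Cardinal.exists_ord_eq (Set ℕ)
  have hcard : #(Set ℕ) = ℵ₁ := by
    rw [Cardinal.mk_set, Cardinal.mk_nat, Cardinal.two_power_aleph0, hCH]
  have hseg : ∀ x, {y | r y x}.Countable := by
    intro x
    rw [← Cardinal.le_aleph0_iff_set_countable, ← Cardinal.lt_aleph_one_iff, ← hcard]
    have := Cardinal.card_typein_lt x hr
    exact this
  have hwf : WellFounded r := IsWellFounded.wf
  have htri : ∀ a b, r a b ∨ a = b ∨ r b a := fun a b => trichotomous_of r a b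
  have htrans : ∀ a b c, r a b → r b c → r a c := fun a b c => _root_.trans
  -- the recursion
  let good : (x : Set ℕ) → ((y : Set ℕ) → r y x → Set ℕ) → Set ℕ → Prop := fun x f P =>
    P.Infinite ∧ (∀ y (hy : r y x), (P \ f y hy).Finite) ∧ (P ⊆ x ∨ P ⊆ xᶜ)
  let step : (x : Set ℕ) → ((y : Set ℕ) → r y x → Set ℕ) → Set ℕ := fun x f =>
    if h : ∃ P, good x f P then Classical.choose h else univ
  let T : Set ℕ → Set ℕ := hwf.fix step
  have hT : ∀ x, T x = step x (fun y _ => T y) := fun x => hwf.fix_eq step x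
  have hP : ∀ x, (T x).Infinite ∧ (∀ y, r y x → (T x \ T y).Finite) ∧ (T x ⊆ x ∨ T x ⊆ xᶜ) := by
    intro x
    induction x using hwf.induction with
    | _ x ih =>
      have hex : ∃ P, good x (fun y _ => T y) P := by
        refine pseudo {y | r y x} (hseg x) T ?_ x
        intro t ht
        -- a finite set of earlier stages
        have hmin : t.Nonempty → ∃ a ∈ t, ∀ b ∈ t, (T a \ T b).Finite := by
          clear hT
          induction t using Finset.induction_on with
          | empty => intro h; exact absurd h Finset.not_nonempty_empty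
          | insert a t ha iht =>
            intro _
            rcases t.eq_empty_or_nonempty with he | hne
            · refine ⟨a, Finset.mem_insert_self _ _, fun b hb => ?_⟩
              rw [he] at hb
              have : b = a := by simpa using hb
              rw [this]; simp
            · obtain ⟨c, hc, hcb⟩ := iht (fun b hb => ht b (Finset.mem_insert_of_mem hb)) hne
              have hax : r a x := ht a (Finset.mem_insert_self _ _)
              have hcx : r c x := ht c (Finset.mem_insert_of_mem hc)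
              rcases htri a c with h | h | h
              · refine ⟨c, Finset.mem_insert_of_mem hc, fun b hb => ?_⟩
                rcases Finset.mem_insert.mp hb with rfl | hb
                · exact (ih c hcx).2.1 _ h
                · exact hcb b hb
              · exact absurd (h ▸ hc) ha
              · refine ⟨a, Finset.mem_insert_self _ _, fun b hb => ?_⟩
                rcases Finset.mem_insert.mp hb with rfl | hb
                · simp
                · have h1 := (ih a hax).2.1 c h
                  have h2 := hcb b hb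
                  exact (h1.union h2).subset (by
                    rintro k ⟨hk1, hk2⟩
                    by_cases hk : k ∈ T c
                    · exact Or.inr ⟨hk, hk2⟩
                    · exact Or.inl ⟨hk1, hk⟩)
        rcases t.eq_empty_or_nonempty with he | hne
        · rw [he]; simpa using infinite_univ
        · obtain ⟨a, hat, hab⟩ := hmin hne
          have h1 := (ih a (ht a hat)).1
          have h2 : (⋃ b ∈ t, (T a \ T b)).Finite :=
            Set.Finite.biUnion t.finite_toSet (fun b hb => hab b hb)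
          refine (h1.sdiff h2).mono ?_
          rintro k ⟨hk1, hk2⟩ b hb
          by_contra hkb
          exact hk2 (mem_iUnion₂.mpr ⟨b, hb, hk1, hkb⟩)
      have h1 : T x = Classical.choose hex := by
        rw [hT x]
        exact dif_pos hex
      rw [h1]
      exact Classical.choose_spec hex
  -- monotonicity
  have hle : ∀ x y, ∃ z, (T z \ T x).Finite ∧ (T z \ T y).Finite := by
    intro x y
    rcases htri x y with h | h | h
    · exact ⟨y, (hP y).2.1 x h, by simp⟩
    · exact ⟨y, by rw [h]; simp, by simp⟩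
    · exact ⟨x, by simp, (hP x).2.1 y h⟩
  let F : Filter ℕ :=
    { sets := {X | ∃ x, (T x \ X).Finite}
      univ_sets := ⟨∅, by simp⟩
      sets_of_superset := by
        rintro X Y ⟨x, hx⟩ hXY
        exact ⟨x, hx.subset (sdiff_subset_sdiff_right hXY)⟩
      inter_sets := by
        rintro X Y ⟨x, hx⟩ ⟨y, hy⟩
        obtain ⟨z, hz1, hz2⟩ := hle x y
        refine ⟨z, ((hz1.union hx).union (hz2.union hy)).subset ?_⟩
        rintro k ⟨hk1, hk2⟩
        by_cases hkX : k ∈ X
        · have hkY : k ∉ Y := fun h => hk2 ⟨hkX, h⟩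
          by_cases h : k ∈ T y
          · exact Or.inr (Or.inr ⟨h, hkY⟩)
          · exact Or.inr (Or.inl ⟨hk1, h⟩)
        · by_cases h : k ∈ T x
          · exact Or.inl (Or.inr ⟨h, hkX⟩)
          · exact Or.inl (Or.inl ⟨hk1, h⟩) }
  have hF : ∀ X, X ∈ F ↔ ∃ x, (T x \ X).Finite := fun X => Iff.rfl
  have hU : ∀ s, sᶜ ∉ F ↔ s ∈ F := by
    intro s
    rw [hF, hF]
    constructor
    · intro h
      rcases (hP s).2.2 with h1 | h1
      · exact ⟨s, by rw [sdiff_eq_empty.mpr h1]; exact finite_empty⟩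
      · exact absurd ⟨s, by rw [sdiff_eq_empty.mpr h1]; exact finite_empty⟩ h
    · rintro ⟨x, hx⟩ ⟨y, hy⟩
      obtain ⟨z, hz1, hz2⟩ := hle x y
      apply (hP z).1
      refine ((hz1.union hx).union (hz2.union hy)).subset ?_
      intro k hk
      by_cases hks : k ∈ s
      · by_cases h : k ∈ T y
        · exact Or.inr (Or.inr ⟨h, fun h' => h' hks⟩)
        · exact Or.inr (Or.inl ⟨hk, h⟩)
      · by_cases h : k ∈ T x
        · exact Or.inl (Or.inr ⟨h, hks⟩)
        · exact Or.inl (Or.inl ⟨hk, h⟩)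
  refine ⟨Ultrafilter.ofComplNotMemIff F hU, ?_, ?_⟩
  · intro X hX
    show X ∈ F
    rw [hF]
    exact ⟨∅, (mem_cofinite.mp hX).subset (fun k hk => hk.2)⟩
  · intro B hB
    have hB' : ∀ n, ∃ x, (T x \ B n).Finite := fun n => hB n
    choose x hx using hB'
    have hcount : (⋃ n, ({y | r y (x n)} ∪ {x n})).Countable :=
      countable_iUnion fun n => (hseg (x n)).union (countable_singleton _)
    have hex : ∃ z, z ∉ ⋃ n, ({y | r y (x n)} ∪ {x n}) := by
      by_contra hcon
      push Not at hcon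
      have h1 : (⋃ n, ({y | r y (x n)} ∪ {x n})) = Set.univ := eq_univ_of_forall hcon
      rw [h1, countable_univ_iff] at hcount
      have h2 : #(Set ℕ) ≤ ℵ₀ := Cardinal.mk_le_aleph0
      rw [hcard] at h2
      exact absurd h2 (not_le.mpr Cardinal.aleph0_lt_aleph_one)
    obtain ⟨z, hz⟩ := hex
    refine ⟨T z, ⟨z, by simp⟩, fun n => ?_⟩
    have h1 : ¬ r z (x n) ∧ z ≠ x n := by
      constructor
      · intro h; exact hz (mem_iUnion.mpr ⟨n, Or.inl h⟩)
      · intro h; exact hz (mem_iUnion.mpr ⟨n, Or.inr h⟩)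
    have h2 : r (x n) z := by
      rcases htri (x n) z with h | h | h
      · exact h
      · exact absurd h.symm h1.2
      · exact absurd h h1.1
    have h3 := (hP z).2.1 (x n) h2
    exact (h3.union (hx n)).subset (by
      rintro k ⟨hk1, hk2⟩
      by_cases h : k ∈ T (x n)
      · exact Or.inr ⟨h, hk2⟩
      · exact Or.inl ⟨hk1, h⟩)

/-! ### the ultraproduct filter -/

open Classical in
/-- the `k`-th level: codes of subsets of `{0,…,k-1}` -/
noncomputable def lev (k : ℕ) : Finset ℕ :=
  (Finset.range k).powerset.image (fun s => Encodable.encode (k, s))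

lemma seg_mem_lev (S : Set ℕ) (k : ℕ) : seg S k ∈ lev k := by
  classical
  unfold seg lev
  rw [Finset.mem_image]
  exact ⟨_, Finset.mem_powerset.mpr (Finset.filter_subset _ _), by congr⟩

lemma lev_disjoint {k l n : ℕ} (hk : n ∈ lev k) (hl : n ∈ lev l) : k = l := by
  unfold lev at hk hl
  obtain ⟨s, -, rfl⟩ := Finset.mem_image.mp hk
  obtain ⟨t, -, ht⟩ := Finset.mem_image.mp hl
  exact (Prod.mk.inj (Encodable.encode_injective ht)).1.symm

/-- sparse subfamilies -/
lemma sparse (F : ℕ → Set ℕ) (hfin : ∀ n, (F n).Finite) (hpt : ∀ k, {n | k ∈ F n}.Finite) :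
    ∃ m : ℕ → ℕ, StrictMono m ∧ ∀ i j, i < j → Disjoint (F (m i)) (F (m j)) := by
  have hstep : ∀ n, ∃ N, n < N ∧ ∀ l ≤ n, ∀ k ∈ F l, ∀ n' ≥ N, k ∉ F n' := by
    intro n
    have h1 : (⋃ l ∈ Finset.range (n + 1), F l).Finite :=
      Set.Finite.biUnion (Finset.finite_toSet _) (fun l _ => hfin l)
    have h2 : (⋃ k ∈ (⋃ l ∈ Finset.range (n + 1), F l), {n | k ∈ F n}).Finite :=
      Set.Finite.biUnion h1 (fun k _ => hpt k)
    obtain ⟨N, hN⟩ := h2.bddAbove
    refine ⟨max N n + 1, by omega, fun l hl k hk n' hn' hkn' => ?_⟩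
    have h3 : n' ∈ ⋃ k ∈ (⋃ l ∈ Finset.range (n + 1), F l), {n | k ∈ F n} := by
      simp only [mem_iUnion, exists_prop]
      exact ⟨k, ⟨l, Finset.mem_range.mpr (by omega), hk⟩, hkn'⟩
    have := hN h3
    omega
  choose g hg1 hg2 using hstep
  refine ⟨fun i => g^[i] 0, ?_, ?_⟩
  · apply strictMono_nat_of_lt_succ
    intro i
    rw [Function.iterate_succ_apply']
    exact hg1 _
  · have hmono : StrictMono (fun i => g^[i] 0) := by
      apply strictMono_nat_of_lt_succ
      intro i
      rw [Function.iterate_succ_apply']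
      exact hg1 _
    intro i j hij
    rw [Set.disjoint_left]
    intro k hk
    apply hg2 (g^[i] 0) _ le_rfl k hk
    show g (g^[i] 0) ≤ g^[j] 0
    rw [← Function.iterate_succ_apply' g i 0]
    exact hmono.monotone (by omega)

lemma case_CH (hCH : (𝔠 : Cardinal.{0}) = ℵ₁) :
    ∃ F : Filter ℕ, IsFree F ∧ ¬ Poor F ∧ ¬ Conglomerated F := by
  classical
  obtain ⟨U, hU, hPP⟩ := exists_pPoint hCH
  let F : Filter ℕ :=
    { sets := {A | {k | ∀ n ∈ lev k, n ∈ A} ∈ U}
      univ_sets := by
        have h : (Set.univ : Set ℕ) ∈ (U : Filter ℕ) := Filter.univ_mem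
        have e : {k | ∀ n ∈ lev k, n ∈ (Set.univ : Set ℕ)} = Set.univ := by
          ext k; simp
        show {k | ∀ n ∈ lev k, n ∈ (Set.univ : Set ℕ)} ∈ U
        rw [e]; exact h
      sets_of_superset := by
        intro X Y hX hXY
        exact mem_of_superset hX fun k hk n hn => hXY (hk n hn)
      inter_sets := by
        intro X Y hX hY
        exact mem_of_superset (inter_mem hX hY) fun k hk n hn => ⟨hk.1 n hn, hk.2 n hn⟩ }
  have hF : ∀ A, A ∈ F ↔ {k | ∀ n ∈ lev k, n ∈ A} ∈ U := fun A => Iff.rfl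
  refine ⟨F, ⟨?_, ?_⟩, ?_, ?_⟩
  · rw [neBot_iff]
    intro hbot
    have h1 : (∅ : Set ℕ) ∈ F := by rw [hbot]; exact mem_bot
    rw [hF] at h1
    have h2 : {k | ∀ n ∈ lev k, n ∈ (∅ : Set ℕ)} = ∅ := by
      rw [eq_empty_iff_forall_notMem]
      intro k hk
      exact hk _ (seg_mem_lev ∅ k)
    rw [h2] at h1
    exact Ultrafilter.empty_notMem h1
  · intro A hA
    rw [hF]
    apply hU
    rw [mem_cofinite]
    have : {k | ∀ n ∈ lev k, n ∈ A}ᶜ ⊆ ⋃ n ∈ Aᶜ, {k | n ∈ lev k} := by
      intro k hk
      have hk' : ¬ ∀ n ∈ lev k, n ∈ A := hk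
      push Not at hk'
      obtain ⟨n, hn1, hn2⟩ := hk'
      exact mem_iUnion₂.mpr ⟨n, hn2, hn1⟩
    refine (Set.Finite.biUnion hA fun n _ => ?_).subset this
    apply Set.Subsingleton.finite
    intro k hk l hl
    exact lev_disjoint hk hl
  · intro hpoor
    have hc := hpoor (Set ℕ) (fun S => range (seg S)) (by
      intro S hcon
      have h1 : {k | ∀ n ∈ lev k, n ∈ (range (seg S))ᶜ} ∈ U := hcon
      have h2 : {k | ∀ n ∈ lev k, n ∈ (range (seg S))ᶜ} = ∅ := by
        rw [eq_empty_iff_forall_notMem]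
        intro k hk
        exact hk _ (seg_mem_lev S k) ⟨k, rfl⟩
      rw [h2] at h1
      exact Ultrafilter.empty_notMem h1) (by
      intro S T hST
      show {k | ∀ n ∈ lev k, n ∈ (range (seg S) ∩ range (seg T))ᶜ} ∈ U
      apply hU
      rw [mem_cofinite]
      have : {k | ∀ n ∈ lev k, n ∈ (range (seg S) ∩ range (seg T))ᶜ}ᶜ
          ⊆ ⋃ n ∈ (range (seg S) ∩ range (seg T)), {k | n ∈ lev k} := by
        intro k hk
        have hk' : ¬ ∀ n ∈ lev k, n ∈ (range (seg S) ∩ range (seg T))ᶜ := hk
        push Not at hk'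
        obtain ⟨n, hn1, hn2⟩ := hk'
        exact mem_iUnion₂.mpr ⟨n, by simpa using hn2, hn1⟩
      refine (Set.Finite.biUnion (seg_inter hST) fun n _ => ?_).subset this
      apply Set.Subsingleton.finite
      intro k hk l hl
      exact lev_disjoint hk hl)
    obtain ⟨f, hf⟩ : ∃ f : ℕ → Set ℕ, Function.Surjective f := exists_surjective_nat _
    exact Function.cantor_surjective f hf
  · rintro ⟨D, hD, hdis, hM⟩
    set B : ℕ → Set ℕ := fun n => {k | ∀ j ∈ lev k, j ∉ D n} with hB
    have hBU : ∀ n, B n ∈ U := fun n => hD n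
    obtain ⟨P, hPU, hPB⟩ := hPP B hBU
    have hpt : ∀ k, {n | k ∈ P \ B n}.Finite := by
      intro k
      have h1 : {n | k ∈ P \ B n} ⊆ ⋃ j ∈ lev k, {n | j ∈ D n} := by
        rintro n ⟨-, hn⟩
        have hn' : ¬ ∀ j ∈ lev k, j ∉ D n := hn
        push Not at hn'
        obtain ⟨j, hj1, hj2⟩ := hn'
        exact mem_iUnion₂.mpr ⟨j, hj1, hj2⟩
      refine (Set.Finite.biUnion (lev k).finite_toSet fun j _ => ?_).subset h1
      apply Set.Subsingleton.finite
      intro m hm n hn
      by_contra hne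
      exact Set.disjoint_left.mp (hdis m n hne) hm hn
    obtain ⟨m, hm, hmd⟩ := sparse (fun n => P \ B n) hPB hpt
    -- the two halves
    have hhalf : ∀ e : ℕ, (⋃ i, (P \ B (m (2 * i + e)))) ∉ U →
        ∃ M : Set ℕ, M.Infinite ∧ (⋃ n ∈ M, D n) ∈ ideal F := by
      intro e he
      refine ⟨range (fun i => m (2 * i + e)), ?_, ?_⟩
      · apply Set.infinite_range_of_injective
        intro i j hij
        have := hm.injective hij
        omega
      · show {k | ∀ j ∈ lev k, j ∈ (⋃ n ∈ range (fun i => m (2 * i + e)), D n)ᶜ} ∈ U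
        have h1 : P \ (⋃ i, (P \ B (m (2 * i + e)))) ∈ U :=
          inter_mem hPU (Ultrafilter.compl_mem_iff_notMem.mpr he)
        refine mem_of_superset h1 ?_
        rintro k ⟨hk1, hk2⟩ j hj hjD
        simp only [mem_iUnion, exists_prop, mem_range, exists_exists_eq_and] at hjD
        obtain ⟨i, hi⟩ := hjD
        apply hk2
        rw [mem_iUnion]
        refine ⟨i, hk1, fun hkB => ?_⟩
        exact hkB j hj hi
    have hcontra : ∃ e : ℕ, (⋃ i, (P \ B (m (2 * i + e)))) ∉ U := by
      by_contra hcon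
      push Not at hcon
      have h0 := hcon 0
      have h1 := hcon 1
      have h2 := inter_mem h0 h1
      have h3 : (⋃ i, (P \ B (m (2 * i + 0)))) ∩ (⋃ i, (P \ B (m (2 * i + 1)))) = ∅ := by
        rw [eq_empty_iff_forall_notMem]
        rintro k ⟨hk1, hk2⟩
        obtain ⟨i, hi⟩ := mem_iUnion.mp hk1
        obtain ⟨j, hj⟩ := mem_iUnion.mp hk2
        rcases lt_or_gt_of_ne (show 2 * i + 0 ≠ 2 * j + 1 by omega) with h | h
        · exact Set.disjoint_left.mp (hmd _ _ h) hi hj
        · exact Set.disjoint_left.mp (hmd _ _ h) hj hi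
      rw [h3] at h2
      exact Ultrafilter.empty_notMem h2
    obtain ⟨e, he⟩ := hcontra
    obtain ⟨M, hMinf, hMI⟩ := hhalf e he
    exact hM M hMinf hMI

/-- **MP_78c350_an, Q1 (disproof, in ZFC).** There is a free filter on `ℕ` which is neither poor
nor conglomerated. -/
theorem result : ∃ F : Filter ℕ, IsFree F ∧ ¬ Poor F ∧ ¬ Conglomerated F := by
  rcases (Cardinal.aleph_one_le_continuum : (ℵ₁ : Cardinal.{0}) ≤ 𝔠).lt_or_eq with h | h
  · exact case_notCH h
  · exact case_CH h.symm

end Pool.Agent.Results.MP_78c350_an.NeitherNor
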